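import Mathlib

set_option autoImplicit false

namespace Pool.Agent.Results.MP_c3fc26_co.Counter

/-- `u` lies in the closed neighbourhood of `v`. -/
def InN {V : Type} (G : SimpleGraph V) (v u : V) : Prop := u = v ∨ G.Adj v u

/-- Every member of `S` has a private neighbour. -/
def Irredundant {V : Type} (G : SimpleGraph V) (S : Set V) : Prop :=
  ∀ v ∈ S, ∃ w, InN G v w ∧ ∀ u ∈ S, u ≠ v → ¬ InN G u w

/-- IRC-colourings with exactly `k` nonempty colour classes. -/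
def IsIRC {V : Type} (G : SimpleGraph V) (k : ℕ) (c : V → Fin k) : Prop :=
  Function.Surjective c ∧ (∀ u v, G.Adj u v → c u ≠ c v) ∧
    ∀ f : Fin k → V, (∀ i, c (f i) = i) → Irredundant G (Set.range f)

/-- x y z w1 w2 v v' a b p q r s are 0 to 12. -/
def ed : List (Fin 13 × Fin 13) :=
  [(0, 1), (1, 2), (0, 2), (3, 0), (3, 1), (4, 2), (6, 2), (7, 3), (7, 4), (7, 5), (7, 6),
   (8, 3), (8, 4), (8, 5), (8, 6), (9, 11), (9, 12), (10, 11), (10, 12), (0, 9), (0, 10),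
   (1, 11), (1, 12)]

def G0 : SimpleGraph (Fin 13) := SimpleGraph.fromRel fun u v => (u, v) ∈ ed

instance : DecidableRel G0.Adj := fun u v => by
  unfold G0; rw [SimpleGraph.fromRel_adj]; infer_instance

instance : DecidableRel (InN G0) := fun u v => by unfold InN; infer_instance

def c4 : Fin 13 → Fin 4 := ![0, 1, 2, 3, 3, 3, 3, 2, 2, 1, 1, 0, 0]

def c3 : Fin 13 → Fin 3 := ![0, 1, 2, 2, 0, 0, 0, 1, 1, 1, 1, 0, 0]

lemma irc4 : IsIRC G0 4 c4 := by
  refine ⟨by decide, by decide +kernel, fun f hf => ?_⟩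
  have key : ∀ a, c4 a = 0 → ∀ b, c4 b = 1 → ∀ c, c4 c = 2 → ∀ d, c4 d = 3 →
      ∀ i : Fin 4, ∃ w, InN G0 (![a, b, c, d] i) w ∧
        ∀ j : Fin 4, j ≠ i → ¬ InN G0 (![a, b, c, d] j) w := by decide +kernel
  have e : f = ![f 0, f 1, f 2, f 3] := by funext i; fin_cases i <;> rfl
  rintro _ ⟨i, rfl⟩
  obtain ⟨w, h1, h2⟩ := key _ (hf 0) _ (hf 1) _ (hf 2) _ (hf 3) i
  rw [← e] at h1 h2
  refine ⟨w, h1, ?_⟩
  rintro _ ⟨j, rfl⟩ hj
  exact h2 j fun h => hj (by rw [h])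

lemma bad {c : Fin 13 → Fin 3} (h : IsIRC G0 3 c) (s t : Fin 13) (h1 : c 5 ≠ c s) (h2 : c 5 ≠ c t)
    (h3 : c s ≠ c t) (h4 : ∀ w, InN G0 5 w → InN G0 s w ∨ InN G0 t w) : False := by
  have tri : ∀ a b d i : Fin 3, a ≠ b → a ≠ d → b ≠ d → i ≠ a → i ≠ b → d = i := by
    intro a b d i; omega
  obtain ⟨w, hw, hp⟩ := h.2.2 (fun i => if i = c 5 then 5 else if i = c s then s else t) (by
    intro i
    split_ifs with a b
    · exact a.symm
    · exact b.symm
    · exact tri _ _ _ _ h1 h2 h3 a b) 5 ⟨c 5, by simp⟩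
  rcases h4 w hw with h5 | h5
  · exact hp s ⟨c s, by simp [h1.symm]⟩ (fun e => h1 (by rw [e])) h5
  · exact hp t ⟨c t, by simp [h2.symm, h3.symm]⟩ (fun e => h2 (by rw [e])) h5

lemma no3 (c : Fin 13 → Fin 3) : ¬ IsIRC G0 3 c := by
  intro h
  have p := h.2.1
  have e78 : c 7 = c 8 := by
    by_contra h78
    exact bad h 7 8 (p _ _ (by decide)) (p _ _ (by decide)) h78 (by decide)
  have e53 : c 5 = c 3 := by
    by_contra h53
    exact bad h 7 3 (p _ _ (by decide)) h53 (p _ _ (by decide)) (by decide)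
  have e54 : c 5 = c 4 := by
    by_contra h54
    exact bad h 7 4 (p _ _ (by decide)) h54 (p _ _ (by decide)) (by decide)
  have q1 := p 0 1 (by decide)
  have q2 := p 1 2 (by decide)
  have q3 := p 0 2 (by decide)
  have q4 := p 3 0 (by decide)
  have q5 := p 3 1 (by decide)
  have q6 := p 4 2 (by decide)
  omega

theorem result : ∃ (n : ℕ) (G : SimpleGraph (Fin n)), G.Connected ∧
    (∃ (k : ℕ) (c : Fin n → Fin k), IsIRC G k c) ∧
    ∀ (k : ℕ) (c : Fin n → Fin k), IsIRC G k c → G.chromaticNumber < k := by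
  refine ⟨13, G0, by decide +kernel, ⟨4, c4, irc4⟩, fun k c h => ?_⟩
  have h3 : G0.chromaticNumber ≤ 3 :=
    (SimpleGraph.Coloring.mk c3 (by decide +kernel) : G0.Coloring (Fin 3)).colorable.chromaticNumber_le
  refine h3.trans_lt ?_
  have q1 := h.2.1 0 1 (by decide)
  have q2 := h.2.1 1 2 (by decide)
  have q3 := h.2.1 0 2 (by decide)
  have : 3 ≤ k := by
    have := (c 0).2
    have := (c 1).2
    have := (c 2).2
    simp only [Ne, Fin.ext_iff] at q1 q2 q3
    omega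
  rcases this.eq_or_lt with rfl | h4
  · exact absurd h (no3 c)
  · exact_mod_cast h4

end Pool.Agent.Results.MP_c3fc26_co.Counter
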